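import Pool.Agent.Helper2.LN6.Final

/-!
# MP_730da0_ag, Q1: every holomorphic map `G_k^0 → G_n^0`, `n > k > 4`, is splittable
-/

namespace Pool.Agent.Results.MP_730da0_ag.AllSplit

open Pool.Agent.Helper2.LN

/-- Let `k > 4` and `n > k`. Then every holomorphic map `f : G_k^0 → G_n^0` is splittable: `f` is homotopic to
`h ∘ d_k` for a continuous `h : ℂ^* → G_n^0`. -/
theorem result (k n : ℕ) (hk : 4 < k) (hkn : k < n) (f : C(G0 k, G0 n)) (hf : Holo f) : Splittable f :=
  Pool.Agent.Helper2.LN6.q1_final hk (by omega) (by omega) f hf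

end Pool.Agent.Results.MP_730da0_ag.AllSplit
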