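import Pool.Agent.Helper2.LN6.Final

/-!
# MP_730da0_ag, Q2: every holomorphic map `SG_k → SG_n`, `n > k > 4`, is constant
-/

namespace Pool.Agent.Results.MP_730da0_ag.ConstSG

open Pool.Agent.Helper50.LN6

/-- Let `k > 4` and `n > k`. Then every holomorphic map `f : SG_k → SG_n` is constant. -/
theorem result (k n : ℕ) (hk : 4 < k) (hkn : k < n) (f : SG k → SG n) (hf : HoloSG f) :
    ∀ x y : SG k, f x = f y :=
  fun x y => Pool.Agent.Helper2.LN6.q2_final hk (by omega) (by omega) f hf x y

end Pool.Agent.Results.MP_730da0_ag.ConstSG
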